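import Mathlib
import Pool.Agent.H97.Nrm

namespace Pool.Agent.Results.MP_dad682_an.No

open scoped BoundedContinuousFunction InnerProductSpace ComplexConjugate
open Filter Topology Pool.Agent.H97.Nrm

noncomputable section

section Defs
variable {H K : Type} [NormedAddCommGroup H] [InnerProductSpace ℂ H]
  [NormedAddCommGroup K] [InnerProductSpace ℂ K]

/-- the norm of a matrix of operators on `H^k` -/
def mnorm {k : ℕ} (X : Fin k → Fin k → H →L[ℂ] H) : ℝ := ‖matOp X‖

/-- the norm of a row -/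
def rnorm {k : ℕ} (R : Fin k → H →L[ℂ] H) : ℝ := ‖rowOp R‖

/-- the norm of a column -/
def cnorm {k : ℕ} (C : Fin k → H →L[ℂ] H) : ℝ := ‖colOp C‖

/-- the column `X C` -/
def xc {k : ℕ} (X : Fin k → Fin k → H →L[ℂ] H) (C : Fin k → H →L[ℂ] H) : H →L[ℂ] Hk H k :=
  matOp X ∘L colOp C

/-- the operator `R X C` -/
def rxc {k : ℕ} (R : Fin k → H →L[ℂ] H) (X : Fin k → Fin k → H →L[ℂ] H)
    (C : Fin k → H →L[ℂ] H) : H →L[ℂ] H := rowOp R ∘L xc X C

/-- `S` norms `B`: the norm of each matrix over `B` is the supremum of the norms of `R X C` over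
contractive rows `R` and columns `C` with entries in `S`. -/
def Norms (S B : Set (H →L[ℂ] H)) : Prop :=
  ∀ (k : ℕ) (X : Fin k → Fin k → H →L[ℂ] H), (∀ i j, X i j ∈ B) →
    IsLUB {t : ℝ | ∃ R C : Fin k → H →L[ℂ] H, (∀ i, R i ∈ S) ∧ (∀ i, C i ∈ S) ∧
      rnorm R ≤ 1 ∧ cnorm C ≤ 1 ∧ t = ‖rxc R X C‖} (mnorm X)

/-- complete contraction on `E`, the matrix norms being those given by the realisations `ρ`, `π` -/
def CC {V W : Type} (E : Set V) (ρ : V → H →L[ℂ] H) (π : W → K →L[ℂ] K) (φ : V → W) : Prop :=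
  ∀ (k : ℕ) (X : Fin k → Fin k → V), (∀ i j, X i j ∈ E) →
    mnorm (fun i j => π (φ (X i j))) ≤ mnorm fun i j => ρ (X i j)

/-- complete isometry into `B(K)` -/
def CIso {V : Type} (ρ : V → H →L[ℂ] H) (φ : V → K →L[ℂ] K) : Prop :=
  ∀ (k : ℕ) (X : Fin k → Fin k → V), mnorm (fun i j => φ (X i j)) = mnorm fun i j => ρ (X i j)

/-- the C*-algebra `B(H)` -/
def BH (H : Type) [NormedAddCommGroup H] [InnerProductSpace ℂ H] : Type := H →L[ℂ] H

instance [CompleteSpace H] : CStarAlgebra (BH H) :=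
  (inferInstance : CStarAlgebra (H →L[ℂ] H))

/-- `φ` is linear on the subspace `E` -/
def LinOn {V W : Type} [AddCommGroup V] [Module ℂ V] [AddCommGroup W] [Module ℂ W]
    (E : Submodule ℂ V) (φ : V → W) : Prop :=
  ∀ (c : ℂ), ∀ x ∈ E, ∀ y ∈ E, φ (c • x + y) = c • φ x + φ y

/-- injectivity: complete contractions from operator spaces `E ⊆ B(L)` extend to `B(L)` -/
def IsInj {I : Type} [AddCommGroup I] [Module ℂ I] (π : I → K →L[ℂ] K) : Prop :=
  ∀ (L : Type) [NormedAddCommGroup L] [InnerProductSpace ℂ L] [CompleteSpace L]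
    (E : Submodule ℂ (BH L)) (φ : BH L → I), LinOn E φ → CC (H := L) (V := BH L) E (fun x => x) π φ →
    ∃ ψ : BH L → I, LinOn ⊤ ψ ∧ CC (H := L) (V := BH L) Set.univ (fun x => x) π ψ ∧ ∀ x ∈ E, ψ x = φ x

/-- a faithful unital representation -/
def IsRep {A : Type} [CStarAlgebra A] [CompleteSpace H] (π : A → BH H) : Prop :=
  Function.Injective π ∧ ∃ f : A →⋆ₐ[ℂ] BH H, ⇑f = π

/-- `I`, with matrix norms from `π` and containing `A` through `ι`, is an injective envelope -/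
def IsEnv {A I : Type} [CStarAlgebra A] [CStarAlgebra I] (π : I → K →L[ℂ] K)
    (ι : A →⋆ₐ[ℂ] I) : Prop :=
  Function.Injective ι ∧ IsInj π ∧
    ∀ u : I →ₗ[ℂ] I, CC Set.univ π π u → (∀ a, u (ι a) = ι a) → u = LinearMap.id

theorem le_of_inner {T : H →L[ℂ] K} {M : ℝ} (hM : 0 ≤ M)
    (h : ∀ v w, ‖⟪w, T v⟫_ℂ‖ ≤ M * ‖v‖ * ‖w‖) : ‖T‖ ≤ M := by
  refine ContinuousLinearMap.opNorm_le_bound _ hM fun v => ?_
  have := h v (T v)
  rw [inner_self_eq_norm_sq_to_K] at this
  simp only [Complex.coe_algebraMap, norm_pow, Complex.norm_real, norm_norm] at this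
  rcases (norm_nonneg (T v)).eq_or_lt with h0 | h0
  · rw [← h0]; positivity
  · nlinarith

theorem PB_fun {k : ℕ} (g : StrongDual ℂ (H →L[ℂ] H)) (hg : ‖g‖ ≤ 1)
    (X : Fin k → Fin k → H →L[ℂ] H) : PB (fun i j => g (X i j)) ‖matOp X‖ := by
  intro ξ
  set w : EuclideanSpace ℂ (Fin k) := WithLp.toLp 2 fun i => ∑ j, g (X i j) * ξ j with hw
  set x : EuclideanSpace ℂ (Fin k) := WithLp.toLp 2 ξ with hx
  have h1 := compress_le X w x
  have h2 : g (∑ i, ∑ j, (conj (w i) * x j) • X i j) = ⟪w, w⟫_ℂ := by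
    rw [PiLp.inner_apply]
    simp only [map_sum, map_smul, smul_eq_mul]
    refine Finset.sum_congr rfl fun i _ => ?_
    have : w i = ∑ j, g (X i j) * ξ j := rfl
    rw [RCLike.inner_apply']
    conv_rhs => rw [this]
    rw [← this]
    conv_rhs => enter [2]; rw [this]
    rw [Finset.mul_sum]
    refine Finset.sum_congr rfl fun j _ => ?_
    have : x j = ξ j := rfl
    rw [this]; ring
  have h3 := g.le_of_opNorm_le hg (∑ i, ∑ j, (conj (w i) * x j) • X i j)
  rw [h2, inner_self_eq_norm_sq_to_K] at h3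
  simp only [Complex.coe_algebraMap, norm_pow, Complex.norm_real, norm_norm, one_mul] at h3
  have h4 : ‖w‖ ≤ ‖matOp X‖ * ‖x‖ := by
    rcases (norm_nonneg w).eq_or_lt with h0 | h0
    · rw [← h0]; positivity
    · nlinarith
  have h5 := pow_le_pow_left₀ (norm_nonneg _) h4 2
  rw [mul_pow, PiLp.norm_sq_eq_of_L2, PiLp.norm_sq_eq_of_L2] at h5
  exact h5

end Defs

theorem isInj : IsInj (fun x : ℕ →ᵇ ℂ => diag x) := by
  intro L _ _ _ E φ hl hφ
  have hb : ∀ (x : E) (n : ℕ), ‖φ x n‖ ≤ 1 * ‖x‖ := fun x n => by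
    have := hφ 1 (fun _ _ => x) (fun _ _ => x.2)
    rw [mnorm, mnorm, norm_matOp_one, norm_matOp_one, norm_diag] at this
    rw [one_mul]
    exact ((φ x).norm_coe_le_norm n).trans this
  have h0 : φ 0 = 0 := by
    have := hl 1 0 E.zero_mem 0 E.zero_mem
    simpa using this
  let f : ℕ → StrongDual ℂ E := fun n => LinearMap.mkContinuous
    { toFun := fun x => φ x n
      map_add' := fun x y => by
        have := hl 1 x x.2 y y.2
        simp only [one_smul] at this
        simp [this]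
      map_smul' := fun c x => by
        have := hl c x x.2 0 E.zero_mem
        simp only [add_zero, h0] at this
        simp [this] } 1 (fun x => hb x n)
  have hf : ∀ n, ‖f n‖ ≤ 1 := fun n => LinearMap.mkContinuous_norm_le _ zero_le_one _
  choose g hg hg' using fun n => exists_extension_norm_eq E (f n)
  have hg1 : ∀ n, ‖g n‖ ≤ 1 := fun n => (hg' n).trans_le (hf n)
  let ψ : BH L → (ℕ →ᵇ ℂ) := fun x => BoundedContinuousFunction.ofNormedAddCommGroupDiscrete
        (fun n => g n x) ‖x‖ (fun n => by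
          simpa using (g n).le_of_opNorm_le (hg1 n) x)
  refine ⟨ψ, fun c x _ y _ => by ext n; simp [ψ], fun k X _ => ?_, fun x hx => ?_⟩
  · rw [mnorm, mnorm, matOp_diag_le _ (ContinuousLinearMap.opNorm_nonneg _)]
    exact fun n => PB_fun (H := L) (g n) (hg1 n) _
  · ext n
    exact hg n ⟨x, hx⟩

def A' : StarSubalgebra ℂ (ℕ →ᵇ ℂ) := StarAlgHom.equalizer (chi U0) (chi U1)

def del (n : ℕ) : ℕ →ᵇ ℂ :=
  BoundedContinuousFunction.ofNormedAddCommGroupDiscrete (fun m => if m = n then 1 else 0) 1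
    (fun m => by split_ifs <;> simp)

theorem del_apply (n m : ℕ) : del n m = if m = n then 1 else 0 := rfl

theorem del_mem (n : ℕ) : del n ∈ A' := by
  change chi U0 _ = chi U1 _
  rw [chi_eq U0 _ 0 (ev0 (n + 1) fun m hm => by rw [del_apply, if_neg (by omega)]),
    chi_eq U1 _ 0 (ev1 (n + 1) fun m hm => by rw [del_apply, if_neg (by omega)])]

theorem rigid (u : (ℕ →ᵇ ℂ) →ₗ[ℂ] (ℕ →ᵇ ℂ)) (hu : ∀ x, ‖u x‖ ≤ ‖x‖)
    (hd : ∀ n, u (del n) = del n) : u = LinearMap.id := by
  have key : ∀ (y : ℕ →ᵇ ℂ) (n : ℕ), y n = 0 → u y n = 0 := by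
    intro y n hy
    set z := u y n with hz
    set s : ℝ := 1 / (‖y‖ * ‖z‖ + 1) with hs
    have hs0 : 0 < s := by positivity
    have h1 : ‖del n + ((s : ℂ) * conj z) • y‖ ≤ 1 := by
      rw [BoundedContinuousFunction.norm_le zero_le_one]
      intro m
      by_cases hm : m = n
      · subst hm; simp [del_apply, hy]
      · simp only [BoundedContinuousFunction.coe_add, BoundedContinuousFunction.coe_smul,
          Pi.add_apply, del_apply, if_neg hm, zero_add, smul_eq_mul, norm_mul, Complex.norm_real,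
          Complex.norm_conj, Real.norm_eq_abs, abs_of_pos hs0]
        have := y.norm_coe_le_norm m
        calc s * ‖z‖ * ‖y m‖ ≤ s * ‖z‖ * ‖y‖ := by gcongr
          _ = (‖y‖ * ‖z‖) / (‖y‖ * ‖z‖ + 1) := by rw [hs]; ring
          _ ≤ 1 := by rw [div_le_one (by positivity)]; linarith
    have h2 := ((u _).norm_coe_le_norm n).trans ((hu _).trans h1)
    rw [map_add, map_smul, hd] at h2
    have h3 : (del n + ((s : ℂ) * conj z) • u y) n = ((1 + s * ‖z‖ ^ 2 : ℝ) : ℂ) := by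
      simp [del_apply, ← hz, mul_assoc, Complex.conj_mul']
    rw [h3, Complex.norm_real, Real.norm_eq_abs, abs_of_pos (by positivity)] at h2
    have : ‖z‖ ^ 2 ≤ 0 := by nlinarith
    have : ‖z‖ = 0 := by nlinarith [norm_nonneg z]
    simpa using this
  ext x n
  have := key (x - x n • del n) n (by simp [del_apply])
  rw [map_sub, map_smul, hd] at this
  simpa [del_apply, sub_eq_zero] using this

def jj : (ℕ →ᵇ ℂ) →⋆ₐ[ℂ] (L2 →L[ℂ] L2) := diag.comp sig

theorem jj_apply (x : ℕ →ᵇ ℂ) : jj x = diag (sig x) := rfl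

theorem jj_inj : Function.Injective jj := by
  intro x y h
  have := diag_inj h
  ext n
  simpa using congrArg (fun z : ℕ →ᵇ ℂ => z (n + 2)) this

instance A'_closed : IsClosed (A' : Set (ℕ →ᵇ ℂ)) :=
  isClosed_eq (AddMonoidHomClass.continuous_of_bound (chi U0) 1 (by simpa using norm_chi_le U0))
    (AddMonoidHomClass.continuous_of_bound (chi U1) 1 (by simpa using norm_chi_le U1))

theorem factor {k : ℕ} (ξ : Hk L2 k) (N : ℕ) (h : ∀ i s, N ≤ s → ξ i s = 0) :
    ∃ (x : Fin k → ℕ →ᵇ ℂ) (v : L2), ‖colOp (fun i => jj (x i))‖ ≤ 1 ∧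
      colOp (fun i => jj (x i)) v = ξ ∧ ‖v‖ = ‖ξ‖ := by
  set r : ℕ → ℝ := fun s => √(∑ i, ‖ξ i s‖ ^ 2) with hr
  have hr2 : ∀ s, r s ^ 2 = ∑ i, ‖ξ i s‖ ^ 2 := fun s => Real.sq_sqrt (by positivity)
  have hr0 : ∀ s, 0 ≤ r s := fun s => Real.sqrt_nonneg _
  set c0 : Fin k → ℕ → ℂ := fun i s => ξ i s / r s with hc0
  have hc : ∀ s, ∑ i, ‖c0 i s‖ ^ 2 ≤ 1 := fun s => by
    simp only [hc0, norm_div, Complex.norm_real, Real.norm_eq_abs, abs_of_nonneg (hr0 s), div_pow]
    rw [← Finset.sum_div, ← hr2]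
    exact div_self_le_one _
  have hc1 : ∀ i s, ‖c0 i s‖ ≤ 1 := fun i s => by
    have := (Finset.single_le_sum (f := fun i => ‖c0 i s‖ ^ 2) (fun _ _ => by positivity)
      (Finset.mem_univ i)).trans (hc s)
    nlinarith [norm_nonneg (c0 i s)]
  set τ : ℕ → ℕ := fun s => if s < N + 2 then s else s % 2 with hτ
  let x : Fin k → ℕ →ᵇ ℂ := fun i => BoundedContinuousFunction.ofNormedAddCommGroupDiscrete
    (fun n => c0 i (τ (n + 2))) 1 (fun n => hc1 _ _)
  have hx : ∀ i n, x i n = c0 i (τ (n + 2)) := fun _ _ => rfl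
  have hsig : ∀ i s, sig (x i) s = c0 i (τ s) := by
    intro i s
    match s with
    | 0 =>
      rw [sig_0, chi_eq U0 _ (c0 i 0) (ev0 N fun m hm => by
        rw [hx]; congr 1; simp only [hτ]; split_ifs <;> omega)]
      simp [hτ]
    | 1 =>
      rw [sig_1, chi_eq U1 _ (c0 i 1) (ev1 N fun m hm => by
        rw [hx]; congr 1; simp only [hτ]; split_ifs <;> omega)]
      simp [hτ]
    | (n + 2) => rfl
  have hs := hasSum_sum (s := Finset.univ) (fun i _ => hasSum_sq (ξ i))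
  have hmem : Memℓp (fun s => (r s : ℂ)) 2 := by
    apply memℓp_gen
    simpa [hr2] using hs.summable
  let v : L2 := ⟨fun s => (r s : ℂ), hmem⟩
  have hv : ∀ s, v s = r s := fun _ => rfl
  refine ⟨x, v, norm_col_diag (fun i => sig (x i)) fun n => by simpa only [hsig] using hc _, ?_, ?_⟩
  · ext i s
    rw [colOp_apply, jj_apply, diag_apply, hsig, hv]
    by_cases hs : s < N + 2
    · simp only [hτ, if_pos hs, hc0]
      by_cases h0 : r s = 0
      · have h1 := (Finset.single_le_sum (f := fun i => ‖ξ i s‖ ^ 2) (fun _ _ => by positivity)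
          (Finset.mem_univ i))
        rw [← hr2, h0] at h1
        have : ‖ξ i s‖ = 0 := by nlinarith [norm_nonneg (ξ i s)]
        simp [h0, norm_eq_zero.1 this]
      · exact div_mul_cancel₀ _ (by exact_mod_cast h0)
    · have : r s = 0 := by simp [hr, h _ s (by omega)]
      rw [this, h i s (by omega)]; simp
  · have h1 := hasSum_sq v
    simp only [hv, Complex.norm_real, Real.norm_eq_abs, sq_abs, hr2] at h1
    have h2 := h1.unique hs
    rw [← PiLp.norm_sq_eq_of_L2] at h2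
    exact (pow_left_inj₀ (norm_nonneg _) (norm_nonneg _) two_ne_zero).1 h2

def trunc {k : ℕ} (ξ : Hk L2 k) (N : ℕ) : Hk L2 k :=
  WithLp.toLp 2 fun i => ∑ s ∈ Finset.range N, lp.single 2 s (ξ i s)

theorem trunc_zero {k : ℕ} (ξ : Hk L2 k) (N : ℕ) (i : Fin k) (s : ℕ) (h : N ≤ s) :
    trunc ξ N i s = 0 := by
  change (∑ s ∈ Finset.range N, lp.single 2 s (ξ i s) : L2) s = 0
  rw [sum_ap]
  refine Finset.sum_eq_zero fun t ht => lp.single_apply_ne _ _ _ ?_
  have := Finset.mem_range.1 ht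
  omega

theorem trunc_tendsto {k : ℕ} (ξ : Hk L2 k) : Tendsto (trunc ξ) atTop (𝓝 ξ) :=
  ((PiLp.continuous_toLp 2 (fun _ : Fin k => L2)).tendsto _).comp
    (tendsto_pi_nhds.2 fun i => (lp.hasSum_single (by norm_num) (ξ i)).tendsto_sum_nat)

theorem norms_range : Norms (Set.range jj) Set.univ := by
  intro k X _
  simp only [mnorm, rnorm, cnorm, rxc, xc]
  constructor
  · rintro t ⟨R, C, -, -, hR, hC, rfl⟩
    calc _ ≤ ‖rowOp R‖ * (‖matOp X‖ * ‖colOp C‖) :=
          (ContinuousLinearMap.opNorm_comp_le _ _).trans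
            (by gcongr; exact ContinuousLinearMap.opNorm_comp_le _ _)
      _ ≤ 1 * (‖matOp X‖ * 1) := by gcongr
      _ = _ := by ring
  · intro M hM
    have key : ∀ (ξ η : Hk L2 k) (N : ℕ),
        0 ≤ M ∧ ‖⟪trunc η N, matOp X (trunc ξ N)⟫_ℂ‖ ≤ M * ‖trunc ξ N‖ * ‖trunc η N‖ := by
      intro ξ η N
      obtain ⟨x, v, hx, hv, hv'⟩ := factor (trunc ξ N) N (trunc_zero ξ N)
      obtain ⟨y, w, hy, hw, hw'⟩ := factor (trunc η N) N (trunc_zero η N)
      have hR := inner_col_row (fun i => jj (y i))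
      have h1 : ‖rowOp (fun i => star (jj (y i))) ∘L matOp X ∘L colOp (fun i => jj (x i))‖ ≤ M :=
        hM ⟨_, _, fun i => ⟨star (y i), map_star _ _⟩, fun i => ⟨x i, rfl⟩,
          by rw [hR, LinearIsometryEquiv.norm_map]; exact hy, hx, rfl⟩
      refine ⟨(ContinuousLinearMap.opNorm_nonneg _).trans h1, ?_⟩
      rw [← hv', ← hw', ← hv, ← hw, ← ContinuousLinearMap.adjoint_inner_right, ← hR]
      refine (norm_inner_le_norm _ _).trans ?_
      have := ContinuousLinearMap.le_of_opNorm_le _ h1 v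
      calc _ ≤ ‖w‖ * (M * ‖v‖) := by gcongr; exact this
        _ = _ := by ring
    refine le_of_inner (key 0 0 0).1 fun ξ η => ?_
    exact le_of_tendsto_of_tendsto'
      ((trunc_tendsto η).inner (𝕜 := ℂ)
        (((matOp X).continuous.tendsto _).comp (trunc_tendsto ξ))).norm
      (((trunc_tendsto ξ).norm.const_mul M).mul (trunc_tendsto η).norm)
      fun N => (key ξ η N).2

theorem col_bound {k : ℕ} (c : Fin k → ℕ →ᵇ ℂ) (h : ‖colOp (fun i => diag (c i))‖ ≤ 1) (n : ℕ) :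
    ∑ i, ‖c i n‖ ^ 2 ≤ 1 := by
  have h1 := ContinuousLinearMap.le_of_opNorm_le _ h (lp.single 2 n 1)
  have h2 := pow_le_pow_left₀ (norm_nonneg _) h1 2
  rw [PiLp.norm_sq_eq_of_L2] at h2
  simpa [diag_single, lp.norm_single (p := 2) (by norm_num)] using h2

theorem cs2 (a b : ℂ) (h : ‖a‖ ^ 2 + ‖b‖ ^ 2 ≤ 1) (v : L2) : ‖a * v 0 + b * v 1‖ ≤ ‖v‖ := by
  have h1 := sum_le_hasSum (Finset.range 2) (fun _ _ => by positivity) (hasSum_sq v)
  simp only [Finset.sum_range_succ, Finset.range_zero, Finset.sum_empty, zero_add] at h1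
  have h2 : ‖a * v 0 + b * v 1‖ ≤ ‖a‖ * ‖v 0‖ + ‖b‖ * ‖v 1‖ :=
    (norm_add_le _ _).trans (by simp)
  refine h2.trans (le_of_sq_le_sq ?_ (norm_nonneg _))
  nlinarith [sq_nonneg (‖a‖ * ‖v 1‖ - ‖b‖ * ‖v 0‖), sq_nonneg ‖v 0‖, sq_nonneg ‖v 1‖,
    mul_le_mul_of_nonneg_right h (add_nonneg (sq_nonneg ‖v 0‖) (sq_nonneg ‖v 1‖))]

def ee (i : Fin 2) : L2 := lp.single 2 (i : ℕ) 1

def XX (i j : Fin 2) : L2 →L[ℂ] L2 := (innerSL ℂ (ee j)).smulRight (ee i)

theorem XX_apply (i j : Fin 2) (v : L2) : XX i j v = v j • ee i := by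
  simp [XX, ee, lp.inner_single_left]

theorem not_norms : ¬ Norms (Set.range fun a : A' => jj a) Set.univ := by
  intro h
  simp only [Norms, mnorm, rnorm, cnorm, rxc, xc] at h
  have h1 : ‖matOp XX‖ ≤ 1 := by
    refine (h 2 XX fun _ _ => trivial).2 ?_
    rintro t ⟨R, C, hR, hC, hR1, hC1, rfl⟩
    choose a0 ha' using hR
    choose b0 hb' using hC
    set a : Fin 2 → ℕ →ᵇ ℂ := fun i => a0 i
    set b : Fin 2 → ℕ →ᵇ ℂ := fun i => b0 i
    have ha : ∀ i, a i ∈ A' := fun i => (a0 i).2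
    have hb : ∀ i, b i ∈ A' := fun i => (b0 i).2
    obtain rfl : R = fun i => star (jj (star (a i))) := by
      ext1 i; rw [map_star, star_star]; exact (ha' i).symm
    obtain rfl : C = fun i => jj (b i) := by ext1 i; exact (hb' i).symm
    rw [inner_col_row] at hR1 ⊢
    rw [LinearIsometryEquiv.norm_map] at hR1
    have h2 := col_bound (fun i => sig (star (a i))) hR1 0
    have h3 := col_bound (fun i => sig (b i)) hC1 0
    have ea : ∀ i, chi U1 (star (a i)) = chi U0 (star (a i)) := fun i =>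
      (star_mem (s := A') (ha i) : chi U0 _ = chi U1 _).symm
    have eb : ∀ i, chi U1 (b i) = chi U0 (b i) := fun i => (hb i : chi U0 _ = chi U1 _).symm
    simp only [Fin.sum_univ_two, sig_0] at h2 h3
    refine le_of_inner zero_le_one fun v w => ?_
    have h4 := cs2 _ _ h2 w
    have h5 := cs2 _ _ h3 v
    have h6 : ⟪w, (ContinuousLinearMap.adjoint (colOp fun i => jj (star (a i))) ∘L matOp XX ∘L
        colOp fun i => jj (b i)) v⟫_ℂ = (chi U0 (b 0) * v 0 + chi U0 (b 1) * v 1) *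
        conj (chi U0 (star (a 0)) * w 0 + chi U0 (star (a 1)) * w 1) := by
      rw [ContinuousLinearMap.comp_apply, ContinuousLinearMap.adjoint_inner_right,
        ContinuousLinearMap.comp_apply, PiLp.inner_apply]
      simp only [Fin.sum_univ_two, matOp_apply, XX_apply, colOp_apply, jj_apply, diag_apply,
        inner_add_right, inner_smul_right, ee, lp.inner_single_right, Fin.val_zero, Fin.val_one,
        sig_0, sig_1, ea, eb, RCLike.inner_apply', map_add, map_mul]
      ring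
    rw [h6, norm_mul, Complex.norm_conj, one_mul]
    gcongr
  set ξ : Hk L2 2 := WithLp.toLp 2 ee with hξ
  have h2 : matOp XX ξ = (2 : ℂ) • ξ := by
    ext1 i
    rw [matOp_apply]
    simp only [Fin.sum_univ_two, XX_apply, hξ, PiLp.smul_apply]
    simp [ee, two_smul]
  have h3 := ContinuousLinearMap.le_of_opNorm_le _ h1 ξ
  rw [h2, norm_smul] at h3
  have h4 : ‖ξ‖ ^ 2 = 2 := by
    rw [PiLp.norm_sq_eq_of_L2]
    simp [hξ, ee, lp.norm_single (p := 2) (by norm_num)]
  simp only [Complex.norm_ofNat] at h3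
  nlinarith [norm_nonneg ξ]

theorem result : ¬ ∀ (H K A B I : Type) [NormedAddCommGroup H] [InnerProductSpace ℂ H]
    [CompleteSpace H] [NormedAddCommGroup K] [InnerProductSpace ℂ K] [CompleteSpace K]
    [CStarAlgebra A] [CStarAlgebra B] [CStarAlgebra I]
    (ρ : A → BH H) (σ : B → BH H) (π : I → BH K) (ι : A →⋆ₐ[ℂ] I) (j : I → BH H),
    IsRep ρ → IsRep σ → Set.range ρ ⊆ Set.range σ → IsRep π → IsEnv (K := K) π ι →
    LinOn ⊤ j → CIso (H := K) (K := H) π j → (∀ a, j (ι a) = ρ a) →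
    Norms (H := H) (Set.range j) (Set.range σ) → Norms (H := H) (Set.range ρ) (Set.range σ) := by
  intro h
  have h1 := h L2 L2 A' (BH L2) (ℕ →ᵇ ℂ) (fun a => jj a) id (fun x => diag x) A'.subtype
    (fun x => jj x) ⟨jj_inj.comp Subtype.val_injective, jj.comp A'.subtype, rfl⟩
    ⟨Function.injective_id, StarAlgHom.id _ _, rfl⟩ (by simp) ⟨diag_inj, diag, rfl⟩
    ⟨Subtype.val_injective, isInj, fun u hu h => ?_⟩
    (fun c x _ y _ => by
      change jj (c • x + y) = c • jj x + jj y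
      rw [map_add, map_smul])
    (fun k X => matOp_sig X) (fun _ => rfl) (fun k X _ => norms_range k X fun _ _ => trivial)
  · exact not_norms fun k X _ => h1 k X fun i j => ⟨X i j, rfl⟩
  refine rigid u (fun x => ?_) fun n => h ⟨del n, del_mem n⟩
  have := hu 1 (fun _ _ => x) (fun _ _ => trivial)
  rwa [mnorm, mnorm, norm_matOp_one, norm_matOp_one, norm_diag, norm_diag] at this

end

end Pool.Agent.Results.MP_dad682_an.No
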